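import Pool.Agent.helper69.LN.GSpec

/-! Row ln:GSB: substitution in circuits with monotone real gates and arbitrary gates. -/

set_option autoImplicit false

namespace Pool.Agent.LN

open Finset Pool.Agent.helper38.Neg Pool.Agent.helper55.NT Pool.Agent.helper83.Comb

/-- the circuit with the two constant gates -/
noncomputable def GSB_base (n : ℕ) : GC n 2 :=
  GC.free (GC.free (GC.nil : GC n 0) 0 (fun i => i.elim0) (fun _ => 0)) 0 (fun i => i.elim0)
    (fun _ => 1)

/-- the wire of a constant or of an input -/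
def GSB_wire (n : ℕ) : Fin n ⊕ Bool → Fin (n + 2)
  | Sum.inl j => Fin.castSucc (Fin.castSucc j)
  | Sum.inr false => Fin.castSucc (Fin.last n)
  | Sum.inr true => Fin.last (n + 1)

theorem GSB_base_val (n : ℕ) (x : Fin n → Bool) (z : Fin n ⊕ Bool) :
    (GSB_base n).val x (GSB_wire n z) = if Sum.elim x id z = true then 1 else 0 := by
  rcases z with j | b
  · show Fin.snoc (α := fun _ => ℝ) (Fin.snoc (α := fun _ => ℝ)
      (fun i : Fin n => if x i = true then (1 : ℝ) else 0) 0) 1
      (Fin.castSucc (Fin.castSucc j)) = _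
    rw [Fin.snoc_castSucc, Fin.snoc_castSucc]
    rfl
  · cases b
    · show Fin.snoc (α := fun _ => ℝ) (Fin.snoc (α := fun _ => ℝ)
        (fun i : Fin n => if x i = true then (1 : ℝ) else 0) 0) 1
        (Fin.castSucc (Fin.last n)) = _
      rw [Fin.snoc_castSucc, Fin.snoc_last]
      simp
    · show Fin.snoc (α := fun _ => ℝ) (Fin.snoc (α := fun _ => ℝ)
        (fun i : Fin n => if x i = true then (1 : ℝ) else 0) 0) 1
        (Fin.last (n + 1)) = _
      rw [Fin.snoc_last]
      simp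

theorem GSB_core (N n s : ℕ) (σ : Fin N → Fin n ⊕ Bool) (C : GC N s) :
    ∃ C' : GC n (2 + s), (∀ x, C'.pat x = C.pat (sb σ x)) ∧
      ∃ ρ : Fin (N + s) → Fin (n + (2 + s)), ∀ x o, C'.val x (ρ o) = C.val (sb σ x) o := by
  induction C with
  | nil =>
    refine ⟨GSB_base n, fun x => ?_, fun o => GSB_wire n (σ o), fun x o => ?_⟩
    · show (([] : List ℝ) ++ List.ofFn _) ++ List.ofFn _ = []
      simp
    · rw [GSB_base_val]
      rfl
  | @mono s C φ hφ i j ih =>
    obtain ⟨C', hpat, ρ, hρ⟩ := ih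
    refine ⟨GC.mono C' φ hφ (ρ i) (ρ j), fun x => hpat x,
      Fin.snoc (α := fun _ => Fin (n + (2 + s) + 1)) (fun o => (ρ o).castSucc) (Fin.last _),
      fun x o => ?_⟩
    refine Fin.lastCases ?_ (fun o => ?_) o
    · show Fin.snoc (α := fun _ => ℝ) (C'.val x) (φ (C'.val x (ρ i)) (C'.val x (ρ j)))
        (Fin.snoc (α := fun _ => Fin (n + (2 + s) + 1)) (fun o => (ρ o).castSucc) (Fin.last _)
          (Fin.last (N + s))) =
        Fin.snoc (α := fun _ => ℝ) (C.val (sb σ x)) (φ (C.val (sb σ x) i) (C.val (sb σ x) j))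
          (Fin.last (N + s))
      rw [Fin.snoc_last, Fin.snoc_last, Fin.snoc_last, hρ, hρ]
    · show Fin.snoc (α := fun _ => ℝ) (C'.val x) (φ (C'.val x (ρ i)) (C'.val x (ρ j)))
        (Fin.snoc (α := fun _ => Fin (n + (2 + s) + 1)) (fun o => (ρ o).castSucc) (Fin.last _)
          (Fin.castSucc o)) =
        Fin.snoc (α := fun _ => ℝ) (C.val (sb σ x)) (φ (C.val (sb σ x) i) (C.val (sb σ x) j))
          (Fin.castSucc o)
      rw [Fin.snoc_castSucc, Fin.snoc_castSucc, Fin.snoc_castSucc, hρ]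
  | @free s C m w g ih =>
    obtain ⟨C', hpat, ρ, hρ⟩ := ih
    refine ⟨GC.free C' m (fun k => ρ (w k)) g, fun x => ?_,
      Fin.snoc (α := fun _ => Fin (n + (2 + s) + 1)) (fun o => (ρ o).castSucc) (Fin.last _),
      fun x o => ?_⟩
    · show C'.pat x ++ List.ofFn (fun k => C'.val x (ρ (w k))) =
        C.pat (sb σ x) ++ List.ofFn (fun k => C.val (sb σ x) (w k))
      rw [hpat]
      simp only [hρ]
    · refine Fin.lastCases ?_ (fun o => ?_) o
      · show Fin.snoc (α := fun _ => ℝ) (C'.val x) (g fun k => C'.val x (ρ (w k)))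
          (Fin.snoc (α := fun _ => Fin (n + (2 + s) + 1)) (fun o => (ρ o).castSucc) (Fin.last _)
            (Fin.last (N + s))) =
          Fin.snoc (α := fun _ => ℝ) (C.val (sb σ x)) (g fun k => C.val (sb σ x) (w k))
            (Fin.last (N + s))
        rw [Fin.snoc_last, Fin.snoc_last, Fin.snoc_last]
        simp only [hρ]
      · show Fin.snoc (α := fun _ => ℝ) (C'.val x) (g fun k => C'.val x (ρ (w k)))
          (Fin.snoc (α := fun _ => Fin (n + (2 + s) + 1)) (fun o => (ρ o).castSucc) (Fin.last _)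
            (Fin.castSucc o)) =
          Fin.snoc (α := fun _ => ℝ) (C.val (sb σ x)) (g fun k => C.val (sb σ x) (w k))
            (Fin.castSucc o)
        rw [Fin.snoc_castSucc, Fin.snoc_castSucc, Fin.snoc_castSucc, hρ]

theorem GSB : GSB_stmt := by
  intro N n s σ C
  obtain ⟨C', hpat, ρ, hρ⟩ := GSB_core N n s σ C
  exact ⟨C', hpat, fun o => ⟨ρ o, fun x => hρ x o⟩⟩

end Pool.Agent.LN
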